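import Pool.Agent.Y581.WN.StmC
import Pool.Agent.Y454.EV.Rob

/-!
# Majority decoding (helper454, job WN-MAJ of helper581)
-/

set_option autoImplicit false

namespace Pool.Agent.Y454.WN

open Pool.Agent.NPC Pool.Agent.H622R2 Pool.Agent.W911.IB Filter
open Pool.Agent.H490R3.LH.EQAx
open Pool.Agent.H620R2.Gauge (Oracle Quant IsFP IsP W_mem_strs W_length_of_mem)
open Pool.Agent.Y581.WN
open Pool.Agent.Y454.EV (growth bits_inj)

theorem dif_card (O A : Oracle) (n : ℕ) :
    (Dif A O n).card = Pool.Agent.W900.CH.dist O A n := by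
  have h1 : {w : List Bool | w.length ≤ n ∧ A w ≠ O w} = (Dif A O n : Set (List Bool)) := by
    ext w
    unfold Dif
    rw [Finset.coe_filter]
    simp only [Set.mem_ofPred_eq]
    exact and_congr_left fun _ => ⟨fun h => W_mem_strs h, fun h => W_length_of_mem h⟩
  rw [← Set.ncard_coe_finset, ← h1]
  rfl

/-- the number of the copies is `4 (nq + 1)` -/
def nq (p : Polynomial ℕ) (s : ℕ) (q : List Bool) : ℕ :=
  2 * q.length + 1 + p.eval (3 * (q.length + s) + 2)

/-- the string with the length `nq` -/
def Xq (p : Polynomial ℕ) (s : ℕ) (q : List Bool) : List Bool :=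
  pairBits q ((List.range (p.eval (3 * (q.length + s) + 2))).map fun _ => true)

/-- the questions -/
def Qm (p : Polynomial ℕ) (s : ℕ) (q : List Bool) : List (List Bool) :=
  (List.range (4 * (nq p s q + 1))).map fun j => pairBits q (Nat.bits j)

/-- the polynomial of the number of errors -/
noncomputable def Pd (p : Polynomial ℕ) (s : ℕ) : Polynomial ℕ :=
  p.comp (3 * (Polynomial.X + Polynomial.C s) + 2)

theorem Pd_eval (p : Polynomial ℕ) (s n : ℕ) : (Pd p s).eval n = p.eval (3 * (n + s) + 2) := by
  simp [Pd, Polynomial.eval_comp]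

theorem up_Pd (p : Polynomial ℕ) (s : ℕ) :
    UPoly (fun q : List Bool => (Pd p s).eval q.length) :=
  UPoly.eval (UPoly.length Poly.id) _

theorem up_nq (p : Polynomial ℕ) (s : ℕ) : UPoly (fun q : List Bool =>
    2 * q.length + 1 + (Pd p s).eval q.length) :=
  UPoly.add (UPoly.add (UPoly.mul (UPoly.const 2) (UPoly.length Poly.id)) (UPoly.const 1))
    (up_Pd p s)

theorem poly_Xq (p : Polynomial ℕ) (s : ℕ) : Poly (Xq p s) := by
  have h1 := NPC.Poly.map (l := fun q : List Bool => List.range ((Pd p s).eval q.length))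
    (F := fun _ _ => true) (UPoly.range (up_Pd p s)) (NPC.Poly.const true)
  refine (poly_pairBits Poly.id h1).congr fun q => ?_
  unfold Xq
  rw [Pd_eval]

theorem poly_Qm (p : Polynomial ℕ) (s : ℕ) : Poly (Qm p s) := by
  have hu := UPoly.mul (UPoly.const (α := List Bool) 4) (UPoly.add (up_nq p s) (UPoly.const 1))
  have h1 := NPC.Poly.map
    (l := fun q : List Bool => List.range (4 * (2 * q.length + 1 + (Pd p s).eval q.length + 1)))
    (F := fun q j => pairBits q (Nat.bits j)) (UPoly.range hu)
    (poly_pairBits (Poly.fst Poly.id) (Poly.natBits (Poly.snd Poly.id)))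
  refine h1.congr fun q => ?_
  unfold Qm nq
  rw [Pd_eval]

/-- the decision -/
def Hm (p : Polynomial ℕ) (s : ℕ) (E1 E2 : List (List Bool))
    (z : List Bool × List Bool) : List Bool :=
  if Xq p s z.1 ∈ E1 then [decide (Xq p s z.1 ∈ E2)]
  else [decide (2 * (nq p s z.1 + 1) < (z.2.filter fun b => b).length)]

theorem poly_Hm (p : Polynomial ℕ) (s : ℕ) (E1 E2 : List (List Bool)) : Poly (Hm p s E1 E2) := by
  have hx : Poly (fun z : List Bool × List Bool => Xq p s z.1) :=
    (poly_Xq p s).comp (Poly.fst Poly.id)
  have h1 : UPoly (fun z : List Bool × List Bool =>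
      2 * (2 * z.1.length + 1 + (Pd p s).eval z.1.length + 1)) :=
    UPoly.mul (UPoly.const 2) (UPoly.add (UPoly.add (UPoly.add (UPoly.mul (UPoly.const 2)
      (UPoly.length (Poly.fst Poly.id))) (UPoly.const 1))
      (UPoly.eval (UPoly.length (Poly.fst Poly.id)) _)) (UPoly.const 1))
  have h2 : Poly (fun z : List Bool × List Bool => (z.2.filter fun b => b).length) :=
    Poly.length (Poly.filter (p := fun _ b => b) (Poly.snd Poly.id) (Poly.snd Poly.id))
  have h3 : Poly (fun z : List Bool × List Bool =>
      [decide (2 * (nq p s z.1 + 1) < (z.2.filter fun b => b).length)]) := by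
    refine (Poly.cons (Poly.decide_lt h1.toPoly h2) (NPC.Poly.const [])).congr fun z => ?_
    unfold nq
    rw [Pd_eval]
  exact NPC.Poly.ite ((NPC.Poly.decide_mem hx (NPC.Poly.const E1)).congr
      fun z => decide_eq_decide.2 Iff.rfl)
    (NPC.Poly.cons ((NPC.Poly.decide_mem hx (NPC.Poly.const E2)).congr
      fun z => decide_eq_decide.2 Iff.rfl) (NPC.Poly.const [])) h3

theorem len_Xq (p : Polynomial ℕ) (s : ℕ) (q : List Bool) : (Xq p s q).length = nq p s q := by
  unfold Xq nq
  rw [len_pair, List.length_map, List.length_range]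

theorem decode {A R K : Oracle} {p : Polynomial ℕ} {s : ℕ}
    (hR : ∀ n, (Dif A (OO K R) n).card ≤ p.eval n)
    (hs : ∀ m ≥ s, 4 * (2 * m + 1 + p.eval (3 * m + 2) + 1) ≤ 2 ^ m) (q : List Bool)
    (hE : ¬ (Xq p s q).length + 1 ≤ nno R (unpair (Xq p s q)).1 (Xq p s q).length) :
    decide (2 * (nq p s q + 1) < (((Qm p s q).map A).filter fun b => b).length) = K q := by
  classical
  rw [len_Xq] at hE
  have hu : (unpair (Xq p s q)).1 = q := by
    unfold Xq
    rw [unpair_pairBits]
  rw [hu] at hE
  obtain ⟨n, hn⟩ : ∃ n, n = nq p s q := ⟨_, rfl⟩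
  obtain ⟨N, hN⟩ : ∃ N, N = 3 * (q.length + s) + 2 := ⟨_, rfl⟩
  rw [← hn] at hE ⊢
  have hlen : (((Qm p s q).map A).filter fun b => b).length =
      ((Finset.range (4 * (n + 1))).filter fun j => A (pairBits q (Nat.bits j)) = true).card := by
    unfold Qm
    rw [← hn, List.map_map, List.filter_map, List.length_map]
    have e1 : ((Finset.range (4 * (n + 1))).filter fun j =>
        A (pairBits q (Nat.bits j)) = true).card =
        ((List.range (4 * (n + 1))).filter
          fun j => decide (A (pairBits q (Nat.bits j)) = true)).length := rfl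
    rw [e1]
    congr 1
    refine List.filter_congr fun j _ => ?_
    simp
  rw [hlen]
  have hO' : ∀ j, OO K R (pairBits q (Nat.bits j)) = xor (K q) (nz R (pairBits q (Nat.bits j))) := by
    intro j
    unfold OO
    rw [unpair_pairBits]
  have hch : ((Finset.range (4 * (n + 1))).filter fun j =>
      ¬ A (pairBits q (Nat.bits j)) = OO K R (pairBits q (Nat.bits j))).card ≤ n := by
    have h0 : p.eval N ≤ n := by
      rw [hn, hN]
      unfold nq
      omega
    refine le_trans ?_ ((hR N).trans h0)
    refine Finset.card_le_card_of_injOn (fun j => pairBits q (Nat.bits j)) ?_ ?_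
    · intro j hj
      rw [Finset.mem_coe, Finset.mem_filter, Finset.mem_range] at hj
      rw [Finset.mem_coe]
      unfold Dif
      rw [Finset.mem_filter]
      refine ⟨W_mem_strs ?_, hj.2⟩
      rw [len_pair, Nat.size_eq_bits_len]
      have h1 := hs (q.length + s) (by omega)
      have h2 : 4 * (n + 1) ≤ 2 ^ (q.length + s) := by
        refine le_trans ?_ h1
        rw [hn]
        unfold nq
        omega
      have h3 : Nat.size j ≤ q.length + s := Nat.size_le.2 (by omega)
      omega
    · intro i _ j _ h
      have h1 := congrArg unpair h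
      simp only [unpair_pairBits, Prod.mk.injEq, true_and] at h1
      exact bits_inj h1
  have hno : ((Finset.range (4 * (n + 1))).filter fun j =>
      nz R (pairBits q (Nat.bits j)) = true).card ≤ n := by
    have : nno R q n = ((Finset.range (4 * (n + 1))).filter fun j =>
      nz R (pairBits q (Nat.bits j)) = true).card := rfl
    omega
  have hwr : ((Finset.range (4 * (n + 1))).filter fun j =>
      ¬ A (pairBits q (Nat.bits j)) = K q).card ≤ n + n := by
    refine le_trans (Finset.card_le_card ?_) ((Finset.card_union_le _ _).trans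
      (add_le_add hch hno))
    intro j hj
    rw [Finset.mem_filter] at hj
    rw [Finset.mem_union, Finset.mem_filter, Finset.mem_filter]
    by_cases h1 : nz R (pairBits q (Nat.bits j)) = true
    · exact Or.inr ⟨hj.1, h1⟩
    · refine Or.inl ⟨hj.1, fun h2 => hj.2 ?_⟩
      rw [h2, hO']
      rw [Bool.not_eq_true] at h1
      rw [h1]
      simp
  have htot := Finset.card_filter_add_card_filter_not (s := Finset.range (4 * (n + 1)))
    (fun j => A (pairBits q (Nat.bits j)) = K q)
  rw [Finset.card_range] at htot
  cases hK : K q with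
  | true =>
    rw [hK] at hwr htot
    rw [decide_eq_true_eq]
    omega
  | false =>
    rw [hK] at hwr htot
    rw [decide_eq_false_iff_not, not_lt]
    have e2 : ((Finset.range (4 * (n + 1))).filter fun j =>
        A (pairBits q (Nat.bits j)) = true).card =
        ((Finset.range (4 * (n + 1))).filter fun j =>
          ¬ A (pairBits q (Nat.bits j)) = false).card := by
      congr 1
      refine Finset.filter_congr fun j _ => ?_
      simp
    omega

theorem t_MAJ : S_maj := by
  classical
  intro K R A p hfin hd
  have h1 := growth (4 * (2 * Polynomial.X + 1 + p.comp (3 * Polynomial.X + 2) + 1)) 1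
  obtain ⟨s, hs⟩ := eventually_atTop.1 h1
  have hs' : ∀ m ≥ s, 4 * (2 * m + 1 + p.eval (3 * m + 2) + 1) ≤ 2 ^ m := by
    intro m hm
    have := hs m hm
    simpa [Polynomial.eval_comp] using this
  obtain ⟨E1, hE1⟩ : ∃ E1 : List (List Bool), ∀ x, x ∈ E1 ↔
      x.length + 1 ≤ nno R (unpair x).1 x.length :=
    ⟨hfin.toFinset.toList, fun x => by
      rw [Finset.mem_toList, Set.Finite.mem_toFinset]
      rfl⟩
  obtain ⟨E2, hE2⟩ : ∃ E2 : List (List Bool), E2 = E1.filter (fun x => K (unpair x).1) :=
    ⟨_, rfl⟩
  have h2 := Pool.Agent.H620R2.Gauge.IsFP.tt (A := A) (poly_Qm p s) (poly_Hm p s E1 E2)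
  have h3 : (fun q => [K q]) = fun q => Hm p s E1 E2 (q, (Qm p s q).map A) := by
    funext q
    unfold Hm
    simp only
    have hu : (unpair (Xq p s q)).1 = q := by
      unfold Xq
      rw [unpair_pairBits]
    by_cases hx : Xq p s q ∈ E1
    · rw [if_pos hx]
      congr 1
      rw [hE2]
      cases hK : K q with
      | true =>
        symm
        rw [decide_eq_true_eq, List.mem_filter]
        exact ⟨hx, by rw [hu]; exact hK⟩
      | false =>
        symm
        rw [decide_eq_false_iff_not, List.mem_filter, not_and]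
        intro _
        rw [hu, hK]
        simp
    · rw [if_neg hx]
      congr 1
      symm
      refine decode (fun n => ?_) hs' q (fun h => hx ((hE1 _).2 h))
      rw [dif_card]
      exact hd n
  rw [h3]
  exact h2

end Pool.Agent.Y454.WN
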